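import Pool.Agent.R205.BohrThick
import Pool.Agent.R205.HardySqrt

/-!
# Thick intersections of return-time sets along Hardy-field functions: a counterexample

For every irrational `α` the pair `f₁ t = t ^ (3/2)`, `f₂ t = α t ^ (3/2) + t` lies in the Hardy field of
rational functions in `√t` and satisfies the hypothesis of Q1, but the conclusion of Q1 fails for the set
`E = {M y : y ≥ 1, ‖y α‖ < 1 / (2 M)}` with `M` large.
-/

set_option autoImplicit false

open Filter Topology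

namespace Pool.Agent.Results.MP_121ecb_an.HardyNotThick

/-- A Hardy field: a subring of the ring of germs at `+∞` of real functions in which every nonzero
element is invertible, all of whose elements are germs of eventually differentiable functions, and
which is closed under differentiation. -/
structure IsHardyField (H : Subring (Germ (atTop : Filter ℝ) ℝ)) : Prop where
  inv_mem : ∀ g ∈ H, g ≠ 0 → ∃ h ∈ H, g * h = 1
  deriv_mem : ∀ f : ℝ → ℝ, (f : Germ (atTop : Filter ℝ) ℝ) ∈ H →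
    (∀ᶠ t in atTop, DifferentiableAt ℝ f t) ∧ ((deriv f : ℝ → ℝ) : Germ (atTop : Filter ℝ) ℝ) ∈ H

/-- The upper density of a set of natural numbers. -/
noncomputable def upperDensity (E : Set ℕ) : ℝ :=
  limsup (fun N : ℕ => ((E ∩ Set.Icc 1 N).ncard : ℝ) / N) atTop

/-- `R f E` is the set of the `n ≥ 1` for which some `x ∈ E` satisfies `x + ⌊f n⌋ ∈ E`. -/
def R (f : ℝ → ℝ) (E : Set ℕ) : Set ℕ :=
  {n | 1 ≤ n ∧ ∃ x ∈ E, ∃ y ∈ E, (y : ℤ) = x + ⌊f n⌋}

/-- A set of natural numbers is thick if it contains arbitrarily long intervals. -/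
def Thick (S : Set ℕ) : Prop := ∀ L : ℕ, ∃ a : ℕ, 1 ≤ a ∧ ∀ i : ℕ, i ≤ L → a + i ∈ S

/-- The hypothesis of Q1: every integer combination `∑ cᵢ fᵢ^(mᵢ)` of derivatives tends in absolute
value to `0` or to `∞`. -/
def Dichotomy {k : ℕ} (f : Fin k → ℝ → ℝ) : Prop :=
  ∀ (c : Fin k → ℤ) (m : Fin k → ℕ),
    Tendsto (fun t : ℝ => |∑ i, (c i : ℝ) * iteratedDeriv (m i) (f i) t|) atTop (𝓝 0) ∨
    Tendsto (fun t : ℝ => |∑ i, (c i : ℝ) * iteratedDeriv (m i) (f i) t|) atTop atTop

/-- The pair of functions `t ^ (3/2)` and `α t ^ (3/2) + t`. -/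
noncomputable def pair (α : ℝ) : Fin 2 → ℝ → ℝ :=
  ![fun t => t ^ (3 / 2 : ℝ), fun t => α * t ^ (3 / 2 : ℝ) + t]

lemma pair_zero (α : ℝ) : pair α 0 = R205.HardySqrt.fn 1 0 := by
  funext t
  simp [pair, R205.HardySqrt.fn]

lemma pair_one (α : ℝ) : pair α 1 = R205.HardySqrt.fn α 1 := by
  funext t
  simp [pair, R205.HardySqrt.fn]

/-- **Q1 is false.**  For every irrational `α` the functions `t ^ (3/2)` and `α t ^ (3/2) + t` lie in
a Hardy field and satisfy the hypothesis of Q1, but for some set `E` of positive integers of positive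
upper density the intersection of the two sets of return times is not thick; in particular the
assertion of Q1 fails. -/
theorem result :
    (∀ α : ℝ, Irrational α →
      (∃ H : Subring (Germ (atTop : Filter ℝ) ℝ), IsHardyField H ∧
        ∀ i, ((pair α i : ℝ → ℝ) : Germ (atTop : Filter ℝ) ℝ) ∈ H) ∧
      Dichotomy (pair α) ∧
      ∃ E : Set ℕ, (∀ x ∈ E, 1 ≤ x) ∧ 0 < upperDensity E ∧ ¬ Thick (⋂ i, R (pair α i) E)) ∧
    ¬ (∀ (H : Subring (Germ (atTop : Filter ℝ) ℝ)), IsHardyField H →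
      ∀ (k : ℕ) (f : Fin k → ℝ → ℝ), (∀ i, ((f i : ℝ → ℝ) : Germ (atTop : Filter ℝ) ℝ) ∈ H) →
        Dichotomy f → ∀ E : Set ℕ, (∀ x ∈ E, 1 ≤ x) → 0 < upperDensity E →
          Thick (⋂ i, R (f i) E)) := by
  have main : ∀ α : ℝ, Irrational α →
      (∃ H : Subring (Germ (atTop : Filter ℝ) ℝ), IsHardyField H ∧
        ∀ i, ((pair α i : ℝ → ℝ) : Germ (atTop : Filter ℝ) ℝ) ∈ H) ∧
      Dichotomy (pair α) ∧
      ∃ E : Set ℕ, (∀ x ∈ E, 1 ≤ x) ∧ 0 < upperDensity E ∧ ¬ Thick (⋂ i, R (pair α i) E) := by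
    intro α hα
    refine ⟨⟨R205.HardySqrt.sqrtField,
      ⟨R205.HardySqrt.isHardyField_sqrtField.inv_mem,
        R205.HardySqrt.isHardyField_sqrtField.deriv_mem⟩, ?_⟩, ?_, ?_⟩
    · intro i
      fin_cases i
      · show ((pair α 0 : ℝ → ℝ) : Germ (atTop : Filter ℝ) ℝ) ∈ _
        rw [pair_zero]
        exact R205.HardySqrt.fn_mem _ _
      · show ((pair α 1 : ℝ → ℝ) : Germ (atTop : Filter ℝ) ℝ) ∈ _
        rw [pair_one]
        exact R205.HardySqrt.fn_mem _ _
    · intro c m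
      simp only [Fin.sum_univ_two, pair_zero, pair_one]
      exact R205.HardySqrt.dichotomy hα (c 0) (c 1) (m 0) (m 1)
    · obtain ⟨E, hE1, hE2, hE3⟩ := R205.BohrThick.main α
      refine ⟨E, hE1, hE2, fun h => hE3 ?_⟩
      intro L
      obtain ⟨a, ha1, ha2⟩ := h L
      refine ⟨a, ha1, fun i hi => ?_⟩
      have h1 := Set.mem_iInter.1 (ha2 i hi)
      exact ⟨h1 0, h1 1⟩
  refine ⟨main, fun h => ?_⟩
  obtain ⟨⟨H, hH, hmem⟩, hdich, E, hE1, hE2, hE3⟩ := main (√2) irrational_sqrt_two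
  exact hE3 (h H hH 2 (pair (√2)) hmem hdich E hE1 hE2)

end Pool.Agent.Results.MP_121ecb_an.HardyNotThick
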